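import Mathlib

open Finset

namespace Pool.Agent.Results.MP_a0b46e_nt.Four

/-- The sum `S_m(n)`. -/
def S (m n : ℕ) : ℚ :=
  ∑ k ∈ Icc 1 n, (n.choose k : ℚ) ^ 2 * ((n + k).choose k : ℚ) ^ 2 / (k : ℚ) ^ (2 * m + 1)

variable {n : ℕ}

abbrev Z (n : ℕ) := ZMod ((n + 1) ^ 4)

/-- The inverse of `k + 1`. -/
def y (n k : ℕ) : Z n := ((k + 1 : ℕ) : Z n)⁻¹

lemma hy (hp : (n + 1).Prime) {k : ℕ} (hk : k < n) : (k + 1) * y n k = 1 := by
  have := ZMod.coe_mul_inv_eq_one (n := (n + 1) ^ 4) (k + 1)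
    ((Nat.coprime_of_lt_prime (by omega) (by omega) hp).symm.pow_right 4)
  rw [← Nat.cast_succ k]
  exact this

lemma p4 : ((n : Z n) + 1) ^ 4 = 0 := by
  exact_mod_cast ZMod.natCast_self ((n + 1) ^ 4)

lemma tk (hp : (n + 1).Prime) : ∀ k < n, ∃ b : Z n,
    (n.choose (k + 1) : Z n) * ((n + (k + 1)).choose (k + 1) : Z n) =
      (-1) ^ (k + 1) * (n + 1) * y n k * (1 - (n + 1) * y n k) * (1 + (n + 1) ^ 2 * b)
  | 0, h => ⟨0, by
    have := hy hp h
    simp only [Nat.cast_zero, zero_add, one_mul] at this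
    simp [this]; ring⟩
  | k + 1, h => by
    obtain ⟨b, hb⟩ := tk hp k (by omega)
    have h1 := hy hp h
    have h2 := hy hp (by omega : k < n)
    have h3 := congrArg (Nat.cast : ℕ → Z n) (Nat.choose_succ_right_eq n (k + 1))
    have h4 := congrArg (Nat.cast : ℕ → Z n)
      (Nat.add_one_mul_choose_eq (n + (k + 1)) (k + 1))
    push_cast [h.le] at h1 h3 h4
    refine ⟨b - y n k ^ 2 - (n + 1) ^ 2 * b * y n k ^ 2, ?_⟩
    rw [← add_assoc n (k + 1) 1]
    generalize (n.choose (k + 1 + 1) : Z n) = A at *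
    generalize ((n + (k + 1) + 1).choose (k + 1 + 1) : Z n) = B at *
    generalize (n.choose (k + 1) : Z n) = A' at *
    generalize ((n + (k + 1)).choose (k + 1) : Z n) = B' at *
    have e1 : A = -A' * (1 - (n + 1) * y n (k + 1)) := by
      linear_combination y n (k + 1) * h3 - (A + A') * h1
    have e2 : B = B' * y n (k + 1) * (1 + (n + 1) * y n k) * (k + 1) := by
      linear_combination (-y n (k + 1)) * h4 - B * h1 - B' * y n (k + 1) * (n + 1) * h2
    rw [e1, e2]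
    linear_combination (-(1 - (n + 1) * y n (k + 1)) * y n (k + 1) * (1 + (n + 1) * y n k) *
      (k + 1)) * hb + (-1) ^ (k + 1 + 1) * (n + 1) * y n (k + 1) * (1 - (n + 1) * y n (k + 1)) *
      (1 - (n + 1) * y n k) * (1 + (n + 1) * y n k) * (1 + (n + 1) ^ 2 * b) * h2

lemma pw (hp : (n + 1).Prime) (e : ℕ) (h0 : e ≠ 0) (he : e < n) :
    ∃ z, ∑ k ∈ range n, y n k ^ e = (n + 1) * z := by
  have := Fact.mk hp
  set x := ∑ k ∈ range n, y n k ^ e
  have : ZMod.castHom (dvd_pow_self (n + 1) four_ne_zero) (ZMod (n + 1)) x = 0 := by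
    have h1 := FiniteField.sum_pow_lt_card_sub_one (ZMod (n + 1)) e (by simpa using he)
    rw [← Equiv.sum_comp (Equiv.inv (ZMod (n + 1)))] at h1
    have h2 : ∑ k ∈ range (n + 1), ((k : ZMod (n + 1))⁻¹) ^ e = 0 := by
      rw [← h1, sum_range]
      exact sum_congr rfl fun i _ => by rw [Equiv.inv_apply]; congr 2; exact ZMod.natCast_zmod_val (n := n + 1) i
    rw [sum_range_succ', Nat.cast_zero, inv_zero, zero_pow h0, add_zero] at h2
    rw [← h2, map_sum]
    refine sum_congr rfl fun k hk => ?_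
    have := congrArg (ZMod.castHom (dvd_pow_self (n + 1) four_ne_zero) (ZMod (n + 1)))
      (hy hp (mem_range.1 hk))
    rw [map_mul, map_one, ← Nat.cast_succ, map_natCast] at this
    rw [map_pow, eq_inv_of_mul_eq_one_right this]
  rw [← ZMod.natCast_zmod_val x, map_natCast, ZMod.natCast_eq_zero_iff] at this
  obtain ⟨z, hz⟩ := this
  exact ⟨z, by rw [← ZMod.natCast_zmod_val x, hz]; push_cast; rfl⟩

lemma pair (hp : (n + 1).Prime) (j : ℕ) {k : ℕ} (hk : k < n) :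
    (n + 1) ^ 2 * (y n (n - 1 - k) ^ (2 * j + 1) + y n k ^ (2 * j + 1)) =
      -(2 * j + 1) * (n + 1) ^ 3 * y n k ^ (2 * j + 2) := by
  have h1 := hy hp hk
  have h2 := hy hp (by omega : n - 1 - k < n)
  rw [Nat.sub_sub, Nat.cast_sub (by omega)] at h2
  rw [Nat.sub_sub]
  push_cast at h2
  generalize y n (n - (1 + k)) = u at *
  generalize y n k = v at *
  have h3 : u = -v + (n + 1) * v * u := by linear_combination (-u) * h1 - v * h2
  obtain ⟨c, hc⟩ := sq_dvd_add_pow_sub_sub ((n + 1) * v * u) (-v) (2 * j + 1)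
  rw [← h3, Nat.add_sub_cancel, pow_succ (-v), pow_mul, neg_sq, ← pow_mul] at hc
  push_cast at hc
  linear_combination (n + 1) ^ 2 * hc + (n + 1) ^ 3 * (2 * j + 1) * v ^ (2 * j + 1) * h3 +
    ((v * u) ^ 2 * c + (2 * j + 1) * v ^ (2 * j + 2) * u) * p4 (n := n)

lemma main (hp : (n + 1).Prime) (m : ℕ) (h : 2 * m + 4 < n) :
    ∑ k ∈ range n, ((n.choose (k + 1) : Z n) *
      ((n + (k + 1)).choose (k + 1) : Z n)) ^ 2 * y n k ^ (2 * m + 1) = 0 := by
  obtain ⟨z, hz⟩ := pw hp _ (by omega) h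
  have h1 := sum_congr rfl fun k (hk : k ∈ range n) => pair hp (m + 1) (mem_range.1 hk)
  rw [← mul_sum, ← mul_sum, sum_add_distrib,
    sum_range_reflect (fun k => y n k ^ (2 * (m + 1) + 1)), show 2 * (m + 1) + 2 = 2 * m + 4 by ring,
    hz] at h1
  have h2 := hy hp (by omega : 1 < n)
  rw [sum_congr rfl (g := fun k => (n + 1) ^ 2 * y n k ^ (2 * (m + 1) + 1) -
    2 * (n + 1) ^ 3 * y n k ^ (2 * m + 4)), sum_sub_distrib, ← mul_sum, ← mul_sum, hz]
  · push_cast at h1 h2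
    linear_combination y n 1 * h1 -
      (n + 1) ^ 2 * (∑ k ∈ range n, y n k ^ (2 * (m + 1) + 1)) * h2 +
      (-(2 * (m + 1) + 1) * y n 1 * z - 2 * z) * p4 (n := n)
  intro k hk
  obtain ⟨b, hb⟩ := tk hp k (mem_range.1 hk)
  have : ((-1 : Z n) ^ (k + 1)) ^ 2 = 1 := by rw [← pow_mul, mul_comm, pow_mul]; simp
  rw [hb]
  linear_combination ((n + 1) * y n k * (1 - (n + 1) * y n k) * (1 + (n + 1) ^ 2 * b)) ^ 2 *
    y n k ^ (2 * m + 1) * this + (y n k ^ (2 * m + 5) + y n k ^ (2 * m + 3) *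
      (1 - (n + 1) * y n k) ^ 2 * (2 * b + (n + 1) ^ 2 * b ^ 2)) * p4 (n := n)

theorem result (m : ℕ) : ∃ E : Finset ℕ, ∀ p, p.Prime → p ∉ E →
    (p : ℤ) ^ 4 ∣ (S m (p - 1)).num := by
  refine ⟨range (2 * m + 6), fun p hp h => ?_⟩
  obtain ⟨n, rfl⟩ := Nat.exists_eq_succ_of_ne_zero hp.ne_zero
  rw [mem_range] at h
  have hd : ∀ k ∈ range n, k + 1 ∣ n.factorial := fun k hk =>
    Nat.dvd_factorial k.succ_pos (mem_range.1 hk)
  set N := ∑ k ∈ range n, (n.choose (k + 1) * (n + (k + 1)).choose (k + 1)) ^ 2 *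
    (n.factorial / (k + 1)) ^ (2 * m + 1) with hN
  have h1 : (n + 1) ^ 4 ∣ N := by
    rw [← ZMod.natCast_eq_zero_iff, ← mul_zero ((n.factorial : Z n) ^ (2 * m + 1)),
      ← main hp m (by omega), mul_sum, hN, Nat.cast_sum]
    refine sum_congr rfl fun k hk => ?_
    obtain ⟨c, hc⟩ := hd k hk
    have h2 := hy hp (mem_range.1 hk)
    have : (c : Z n) = n.factorial * y n k := by
      rw [hc]; push_cast; linear_combination (-c) * h2
    rw [Nat.div_eq_of_eq_mul_right k.succ_pos hc]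
    push_cast
    rw [this]
    ring
  have h2 : S m n * (n.factorial : ℚ) ^ (2 * m + 1) = N := by
    rw [S, ← Ico_add_one_right_eq_Icc, sum_Ico_eq_sum_range, Nat.add_sub_cancel, sum_mul, hN,
      Nat.cast_sum]
    refine sum_congr rfl fun k hk => ?_
    push_cast [Nat.cast_div (hd k hk) (Nat.cast_ne_zero.2 k.succ_ne_zero : ((k + 1 : ℕ) : ℚ) ≠ 0),
      add_comm 1 k]
    rw [div_pow]
    ring
  have h3 : (S m n).num * (n.factorial : ℤ) ^ (2 * m + 1) = N * (S m n).den := by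
    exact_mod_cast (by rw [← Rat.mul_den_eq_num, ← h2]; ring :
      ((S m n).num : ℚ) * (n.factorial : ℚ) ^ (2 * m + 1) = N * (S m n).den)
  refine IsCoprime.dvd_of_dvd_mul_right (z := (n.factorial : ℤ) ^ (2 * m + 1)) ?_ ?_
  · exact (Nat.isCoprime_iff_coprime.2 (hp.coprime_iff_not_dvd.2 fun h =>
      by have := hp.dvd_factorial.1 h; omega)).pow
  · rw [Nat.succ_sub_one, h3]
    exact Dvd.dvd.mul_right (by exact_mod_cast h1) _

end Pool.Agent.Results.MP_a0b46e_nt.Four
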